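import Pool.Agent.Lib_MP_272625_co.Star

set_option autoImplicit false
set_option maxHeartbeats 2000000

/-!
Bruhat order and the final argument.
-/

namespace Pool.Agent.LibMP272625

open CoxeterSystem List

variable {B W : Type*} [Group W] {M : CoxeterMatrix B} (cs : CoxeterSystem M W)

/-- An edge of the Bruhat graph. -/
def Step (x y : W) : Prop := ∃ t, cs.IsReflection t ∧ y = t * x ∧ cs.length x < cs.length y

/-- Bruhat order. -/
def Br (x y : W) : Prop := Relation.ReflTransGen (Step cs) x y

theorem Br.length_le {x y : W} (h : Br cs x y) : cs.length x ≤ cs.length y := by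
  unfold Br at h
  induction h with
  | refl => exact le_rfl
  | tail _ h2 ih =>
    obtain ⟨t, _, _, h3⟩ := h2
    omega

theorem Br.eq_of_length {x y : W} (h : Br cs x y) (hl : cs.length y ≤ cs.length x) : x = y := by
  unfold Br at h
  cases h with
  | refl => rfl
  | tail h1 h2 =>
    have h4 := Br.length_le cs h1
    obtain ⟨t, _, _, h3⟩ := h2
    omega

theorem step_of_mem {t x : W} (h : t ∈ N cs x) : Step cs (t * x) x := by
  refine ⟨t, h.1, ?_, h.2⟩
  rw [← mul_assoc, h.1.mul_self, one_mul]

theorem step_simple {i : B} {x y : W} (h : Step cs x y) :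
    y = cs.simple i * x ∨ Step cs (cs.simple i * x) (cs.simple i * y) := by
  obtain ⟨t, ht, rfl, hl⟩ := h
  by_cases h1 : t * x = cs.simple i * x
  · left; exact h1
  right
  have h2 : t ∉ N cs x := by
    intro h; have := h.2; omega
  set s := cs.simple i with hs
  have hss : s * s = 1 := by simp [hs]
  have hR : cs.IsReflection (s * t * s) := by
    have := ht.conj s
    rwa [hs, inv_simple, ← hs] at this
  have e : s * (t * x) = (s * t * s) * (s * x) := by
    have : (s * t * s) * (s * x) = s * t * (s * s) * x := by group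
    rw [this, hss]; group
  refine ⟨s * t * s, hR, e, ?_⟩
  have h3 : s * t * s ∉ N cs (s * x) := by
    intro h
    have h4 := mem_N_simple_mul cs (i := i) (y := x) (t := s * t * s)
    rw [← hs] at h4
    have e2 : s * (s * t * s) * s = t := by
      have : s * (s * t * s) * s = (s * s) * t * (s * s) := by group
      rw [this, hss]; group
    rw [e2] at h4
    have h5 : s * t * s = s := by tauto
    have h6 : t = s := by rw [← e2, h5, hss, one_mul]
    exact h1 (by rw [h6])
  rw [e]
  have h4 := hR.length_mul_right_ne (s * x)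
  by_contra h5
  apply h3
  exact ⟨hR, by omega⟩

theorem br_simple {i : B} {x y : W} (h : Br cs x y) :
    Br cs (cs.simple i * x) (cs.simple i * y) ∨
      (Br cs (cs.simple i * x) y ∧ Br cs x (cs.simple i * y)) := by
  unfold Br at h
  induction h using Relation.ReflTransGen.head_induction_on with
  | refl => left; exact Relation.ReflTransGen.refl
  | head h1 h2 ih =>
    rename_i a b
    rcases step_simple cs (i := i) h1 with h3 | h3
    · have h3' : a = cs.simple i * b := by rw [h3]; simp
      rcases ih with h4 | h4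
      · right
        constructor
        · rw [← h3]; exact h2
        · rw [← h3'] at h4; exact h4
      · left
        rw [← h3]; exact h4.2
    · rcases ih with h4 | h4
      · left; exact Relation.ReflTransGen.head h3 h4
      · right
        exact ⟨Relation.ReflTransGen.head h3 h4.1, Relation.ReflTransGen.head h1 h4.2⟩

theorem br_down {i : B} {z w : W} (hz : cs.simple i ∈ N cs z) (h : Br cs z w) :
    Br cs (cs.simple i * z) (cs.simple i * w) := by
  rcases br_simple cs (i := i) h with h1 | h1
  · exact h1
  · exact Relation.ReflTransGen.head (step_of_mem cs hz) h1.2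

theorem br_lift {i : B} {z w : W} (hw : cs.simple i ∈ N cs w) (h : Br cs z w) :
    Br cs (cs.simple i * z) w := by
  rcases br_simple cs (i := i) h with h1 | h1
  · exact Relation.ReflTransGen.tail h1 (step_of_mem cs hw)
  · exact h1.1

theorem br_up {i : B} {x w : W} (hw : cs.simple i ∉ N cs w) (h : Br cs x w) :
    Br cs (cs.simple i * x) (cs.simple i * w) := by
  rcases br_simple cs (i := i) h with h1 | h1
  · exact h1
  · refine Relation.ReflTransGen.tail h1.1 ?_
    refine ⟨cs.simple i, cs.isReflection_simple i, rfl, ?_⟩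
    rw [simple_mem_N_iff] at hw
    have := cs.length_simple_mul_ne w i
    omega

theorem N_simple_mul_of_mem {i : B} {p z : W} (h : N cs p ⊆ N cs z) (hi : cs.simple i ∈ N cs p) :
    N cs (cs.simple i * p) ⊆ N cs (cs.simple i * z) := by
  intro t ht
  rw [mem_N_simple_mul] at ht ⊢
  have hiz := h hi
  by_cases h1 : t = cs.simple i
  · exfalso
    apply ht
    have e : cs.simple i * t * cs.simple i = cs.simple i := by rw [h1]; simp
    rw [e]; tauto
  · have h2 : cs.simple i * t * cs.simple i ∈ N cs p := by tauto
    have h3 := h h2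
    tauto

/-- If `p` is a common prefix of `z` and `w`, `z ≤ w` in Bruhat order and `s` is a letter with
`p s p⁻¹ ∈ N w`, `p s p⁻¹ ∉ N z`, then `p s p⁻¹ z ≤ w`. -/
theorem br_reflect (n : ℕ) : ∀ (p z w : W) (i : B), cs.length p ≤ n → N cs p ⊆ N cs z →
    N cs p ⊆ N cs w → Br cs z w → p * cs.simple i * p⁻¹ ∈ N cs w →
    p * cs.simple i * p⁻¹ ∉ N cs z → Br cs (p * cs.simple i * p⁻¹ * z) w := by
  induction n with
  | zero =>
    intro p z w i hn _ _ hzw hw hz
    have hp : p = 1 := by rw [← cs.length_eq_zero_iff]; omega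
    subst hp
    simp only [one_mul, inv_one, mul_one] at hw hz ⊢
    exact br_lift cs hw hzw
  | succ n ih =>
    intro p z w i hn hpz hpw hzw hw hz
    by_cases hp : p = 1
    · subst hp
      simp only [one_mul, inv_one, mul_one] at hw hz ⊢
      exact br_lift cs hw hzw
    obtain ⟨j, hj⟩ := cs.exists_leftDescent_of_ne_one hp
    have hj' : cs.length (cs.simple j * p) < cs.length p := hj
    have hjN : cs.simple j ∈ N cs p := by rw [simple_mem_N_iff]; exact hj'
    have hjz := hpz hjN
    have hjw := hpw hjN
    set s := cs.simple j with hs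
    have hss : s * s = 1 := by simp [hs]
    have hsi : s⁻¹ = s := by simp [hs]
    set ρ := p * cs.simple i * p⁻¹ with hρ
    have e1 : s * p * cs.simple i * (s * p)⁻¹ = s * ρ * s := by
      rw [hρ, mul_inv_rev, hsi]; group
    have hne : s * ρ * s ≠ s := by
      intro h
      have h2 : ρ = s := by
        have : s * (s * ρ * s) * s = (s * s) * ρ * (s * s) := by group
        rw [h, hss] at this
        simpa [hss] using this.symm
      rw [h2] at hz; exact hz hjz
    have hkey : ∀ v : W, (s * ρ * s ∈ N cs (s * v) ↔ ρ ∈ N cs v) := by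
      intro v
      have h1 := mem_N_simple_mul cs (i := j) (y := v) (t := s * ρ * s)
      rw [← hs] at h1
      have e2 : s * (s * ρ * s) * s = ρ := by
        have : s * (s * ρ * s) * s = (s * s) * ρ * (s * s) := by group
        rw [this, hss]; group
      rw [e2] at h1
      tauto
    have h1 := ih (s * p) (s * z) (s * w) i (by omega) (N_simple_mul_of_mem cs hpz hjN)
      (N_simple_mul_of_mem cs hpw hjN) (br_down cs hjz hzw)
      (by rw [e1, hkey]; exact hw) (by rw [e1, hkey]; exact hz)
    rw [e1] at h1
    have hsw : s ∉ N cs (s * w) := by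
      intro h
      have h2 := h.2
      have h3 := hjw.2
      rw [← mul_assoc, hss, one_mul] at h2
      omega
    have h2 := br_up cs (i := j) hsw h1
    rw [← hs] at h2
    have e3 : s * (s * ρ * s * (s * z)) = ρ * z := by
      have : s * (s * ρ * s * (s * z)) = (s * s) * ρ * (s * s) * z := by group
      rw [this, hss]; group
    have e4 : s * (s * w) = w := by rw [← mul_assoc, hss, one_mul]
    rw [e3, e4] at h2
    exact h2

variable [Finite W]

/-- Main step. -/
theorem main_step {w z a b : W} (ha : N cs a ⊆ N cs w) (hb : N cs b ⊆ N cs w)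
    (hab : ∀ i : B, ¬ (cs.simple i ∈ N cs a ∧ cs.simple i ∈ N cs b))
    (hzw : Br cs z w) (hne : z ≠ w) :
    ∃ r ∈ N cs w, (r ∉ N cs a ∨ r ∉ N cs b) ∧ r ∉ N cs z ∧ Br cs (r * z) w := by
  classical
  have hlt : cs.length z < cs.length w := by
    by_contra h
    exact hne (Br.eq_of_length cs hzw (by omega))
  have hex : ∃ n : ℕ, ∃ x : W, N cs x ⊆ N cs w ∧ ¬ N cs x ⊆ N cs z ∧ cs.length x = n := by
    refine ⟨_, w, subset_rfl, ?_, rfl⟩
    intro h
    have := length_le_of_N_subset cs h
    omega
  obtain ⟨q, hqw, hqz, hql⟩ := Nat.find_spec hex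
  have hmin : ∀ x, N cs x ⊆ N cs w → ¬ N cs x ⊆ N cs z → cs.length q ≤ cs.length x := by
    intro x h1 h2
    rw [hql]
    exact Nat.find_min' hex ⟨x, h1, h2, rfl⟩
  have hq1 : q ≠ 1 := by
    rintro rfl
    apply hqz
    intro t ht
    exact absurd ht (N_one cs t)
  obtain ⟨i, hi⟩ := cs.exists_rightDescent_of_ne_one hq1
  have hi' : cs.length (q * cs.simple i) < cs.length q := hi
  have hstar := star cs hqw hqz hmin hi'
  set β := q * cs.simple i * q⁻¹ with hβdef
  have hβ : β ∈ N cs q := (conj_simple_mem_N_iff cs).2 hi'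
  -- `p = q s`
  have hp : ∀ t, t ∈ N cs (q * cs.simple i) ↔ ¬ (t ∈ N cs q ↔ t = β) := by
    intro t; exact mem_N_mul_simple cs
  have hpq : N cs (q * cs.simple i) ⊆ N cs q := by
    intro t ht
    rw [hp] at ht
    by_contra hc
    have : t = β := by tauto
    exact hc (this ▸ hβ)
  have hpz : N cs (q * cs.simple i) ⊆ N cs z := by
    by_contra hc
    have := hmin _ (hpq.trans hqw) hc
    omega
  have hβz : β ∉ N cs z := by
    intro h
    apply hqz
    intro t ht
    by_cases h2 : t = β
    · rw [h2]; exact h
    · apply hpz; rw [hp]; tauto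
  have e : q * cs.simple i * cs.simple i * (q * cs.simple i)⁻¹ = β := by
    rw [hβdef, mul_inv_rev, inv_simple]
    have : q * cs.simple i * cs.simple i * (cs.simple i * q⁻¹) =
      q * cs.simple i * (cs.simple i * cs.simple i) * q⁻¹ := by group
    rw [this, simple_mul_simple_self, mul_one]
  refine ⟨β, hqw hβ, ?_, hβz, ?_⟩
  · by_contra hcon
    push Not at hcon
    have h1 := hstar a ha hcon.1
    have h2 := hstar b hb hcon.2
    obtain ⟨j, hj⟩ := cs.exists_leftDescent_of_ne_one hq1
    have hjN : cs.simple j ∈ N cs q := by rw [simple_mem_N_iff]; exact hj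
    exact hab j ⟨h1 hjN, h2 hjN⟩
  · have h1 := br_reflect cs _ (q * cs.simple i) z w i le_rfl hpz (hpq.trans hqw) hzw
      (by rw [e]; exact hqw hβ) (by rw [e]; exact hβz)
    rw [e] at h1
    exact h1

end Pool.Agent.LibMP272625
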