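import Mathlib

set_option autoImplicit false

/-!
The reflection cocycle of a Coxeter group: for `t`, `t ∈ N (x * y)` iff exactly one of
`t ∈ N x` and `x⁻¹ * t * x ∈ N y` holds, where `N w` is the set of left inversions of `w`.
-/

namespace Pool.Agent.LibMP272625

open CoxeterSystem List

variable {B W : Type*} [Group W] {M : CoxeterMatrix B} (cs : CoxeterSystem M W)

open Classical in
/-- The action of a simple reflection on `W × ZMod 2`. -/
noncomputable def sg (i : B) : Function.End (W × ZMod 2) :=
  fun p => (cs.simple i * p.1 * (cs.simple i)⁻¹, p.2 + if p.1 = cs.simple i then 1 else 0)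

open Classical in
theorem prod_map_sg (ω : List B) (t : W) (e : ZMod 2) :
    (List.map (sg cs) ω).prod (t, e) =
      (cs.wordProd ω * t * (cs.wordProd ω)⁻¹, e + ((cs.rightInvSeq ω).count t : ZMod 2)) := by
  induction ω with
  | nil => simp; rfl
  | cons i ω ih =>
    rw [List.map_cons, List.prod_cons]
    change sg cs i ((List.map (sg cs) ω).prod (t, e)) = _
    rw [ih]
    unfold sg
    rw [rightInvSeq, List.count_cons, wordProd_cons]
    apply Prod.ext
    · simp [mul_assoc]
    · have h : (cs.wordProd ω * t * (cs.wordProd ω)⁻¹ = cs.simple i) ↔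
          ((cs.wordProd ω)⁻¹ * cs.simple i * cs.wordProd ω = t) := by
        constructor
        · intro h; rw [← h]; group
        · intro h; rw [← h]; group
      by_cases h2 : cs.wordProd ω * t * (cs.wordProd ω)⁻¹ = cs.simple i
      · have h3 := h.1 h2
        simp [h2, h3, add_assoc]
      · have h3 : ¬ ((cs.wordProd ω)⁻¹ * cs.simple i * cs.wordProd ω = t) := fun h4 => h2 (h.2 h4)
        simp [h2, h3]

theorem reverse_alternatingWord (i j : B) (m : ℕ) :
    (alternatingWord i j (2 * m)).reverse = alternatingWord j i (2 * m) := by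
  apply List.ext_getElem
  · simp
  · intro k h1 h2
    simp only [List.length_reverse, length_alternatingWord] at h1
    rw [List.getElem_reverse, getElem_alternatingWord _ _ _ _ (by simp; omega),
      getElem_alternatingWord _ _ _ _ (by omega)]
    simp only [length_alternatingWord]
    have : Even (2 * m + (2 * m - 1 - k)) ↔ ¬ Even (2 * m + k) := by
      rw [Nat.even_iff, Nat.even_iff]; omega
    by_cases h : Even (2 * m + k)
    · simp [h, this]
    · simp [h, this]

open Classical in
theorem even_count_alternating (i j : B) (t : W) :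
    ((cs.leftInvSeq (alternatingWord i j (2 * M i j))).count t : ZMod 2) = 0 := by
  set m := M i j with hm
  set L := cs.leftInvSeq (alternatingWord i j (2 * m)) with hL
  have hlen : L.length = 2 * m := by simp [hL]
  have hd : L.drop m = L.take m := by
    apply List.ext_getElem
    · simp [hlen]; omega
    · intro k h1 h2
      have hk : k < m := by
        simp only [List.length_take] at h2; omega
      rw [List.getElem_drop, List.getElem_take]
      rw [getElem_leftInvSeq_alternatingWord cs i j m (m + k) (by omega),
        getElem_leftInvSeq_alternatingWord cs i j m k (by omega)]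
      rw [prod_alternatingWord_eq_mul_pow, prod_alternatingWord_eq_mul_pow]
      have e1 : ¬ Even (2 * (m + k) + 1) := by rw [Nat.even_iff]; omega
      have e2 : ¬ Even (2 * k + 1) := by rw [Nat.even_iff]; omega
      have e3 : (2 * (m + k) + 1) / 2 = m + k := by omega
      have e4 : (2 * k + 1) / 2 = k := by omega
      rw [if_neg e1, if_neg e2, e3, e4, pow_add]
      have : (cs.simple j * cs.simple i) ^ m = 1 := by
        rw [hm]; exact cs.simple_mul_simple_pow' i j
      rw [this, one_mul]
  have : L.count t = 2 * (L.take m).count t := by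
    conv_lhs => rw [← List.take_append_drop m L]
    rw [List.count_append, hd]; ring
  rw [this]
  push_cast
  have h2 : (2 : ZMod 2) = 0 := by decide
  rw [h2, zero_mul]

theorem map_sg_alternating (i j : B) (m : ℕ) :
    (List.map (sg cs) (alternatingWord i j (2 * m))).prod = (sg cs i * sg cs j) ^ m := by
  induction m with
  | zero => simp [alternatingWord]
  | succ m ih =>
    have : 2 * (m + 1) = (2 * m + 1) + 1 := by ring
    rw [this, alternatingWord_succ', alternatingWord_succ']
    have e1 : ¬ Even (2 * m + 1) := by rw [Nat.even_iff]; omega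
    have e2 : Even (2 * m) := by rw [Nat.even_iff]; omega
    rw [if_neg e1, if_pos e2, List.map_cons, List.map_cons, List.prod_cons, List.prod_cons, ih,
      pow_succ', mul_assoc]

theorem sg_liftable : M.IsLiftable (sg cs) := by
  intro i j
  rw [← map_sg_alternating]
  funext p
  obtain ⟨t, e⟩ := p
  classical
  rw [prod_map_sg]
  change _ = (t, e)
  have h1 : cs.wordProd (alternatingWord i j (2 * M i j)) = 1 := by
    rw [prod_alternatingWord_eq_mul_pow]
    have e2 : Even (2 * M i j) := by rw [Nat.even_iff]; omega
    rw [if_pos e2, one_mul]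
    have : 2 * M i j / 2 = M i j := by omega
    rw [this]; simp
  have h2 : ((cs.rightInvSeq (alternatingWord i j (2 * M i j))).count t : ZMod 2) = 0 := by
    have : cs.rightInvSeq (alternatingWord i j (2 * M i j)) =
        (cs.leftInvSeq (alternatingWord j i (2 * M i j))).reverse := by
      rw [← reverse_alternatingWord j i, rightInvSeq_reverse]
    rw [this, List.count_reverse, M.symmetric i j]
    exact even_count_alternating cs j i t
  rw [h1, h2]; simp

/-- The sign representation of `W` on `W × ZMod 2`. -/
noncomputable def rho : W →* Function.End (W × ZMod 2) := cs.lift ⟨sg cs, sg_liftable cs⟩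

theorem rho_wordProd (ω : List B) : rho cs (cs.wordProd ω) = (List.map (sg cs) ω).prod := by
  unfold wordProd
  rw [map_list_prod, List.map_map]
  congr 1
  apply List.map_congr_left
  intro i _
  simp [rho, lift_apply_simple]

/-- The cocycle. -/
noncomputable def eta (w t : W) : ZMod 2 := (rho cs w (t, 0)).2

open Classical in
theorem eta_wordProd (ω : List B) (t : W) :
    eta cs (cs.wordProd ω) t = ((cs.rightInvSeq ω).count t : ZMod 2) := by
  unfold eta
  rw [rho_wordProd, prod_map_sg, zero_add]

theorem rho_apply (w t : W) (e : ZMod 2) : rho cs w (t, e) = (w * t * w⁻¹, e + eta cs w t) := by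
  obtain ⟨ω, rfl⟩ := cs.wordProd_surjective w
  rw [eta_wordProd, rho_wordProd, prod_map_sg]

theorem eta_mul (x y t : W) : eta cs (x * y) t = eta cs y t + eta cs x (y * t * y⁻¹) := by
  have h : rho cs (x * y) (t, 0) = rho cs x (rho cs y (t, 0)) := by
    rw [map_mul]; rfl
  rw [rho_apply, rho_apply, rho_apply] at h
  have := congrArg Prod.snd h
  simpa using this

theorem eta_one (t : W) : eta cs 1 t = 0 := by
  have := eta_mul cs 1 1 t
  simpa using this

theorem eta_simple (i : B) : eta cs (cs.simple i) (cs.simple i) = 1 := by
  classical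
  have := eta_wordProd cs [i] (cs.simple i)
  simpa using this

theorem eta_reflection {t : W} (ht : cs.IsReflection t) : eta cs t t = 1 := by
  obtain ⟨u, i, rfl⟩ := ht
  have h1 := eta_mul cs (u * cs.simple i) u⁻¹ (u * cs.simple i * u⁻¹)
  have h2 := eta_mul cs u (cs.simple i) (cs.simple i)
  have h3 := eta_mul cs u u⁻¹ (u * cs.simple i * u⁻¹)
  have e1 : u⁻¹ * (u * cs.simple i * u⁻¹) * u⁻¹⁻¹ = cs.simple i := by group
  rw [e1] at h1 h3
  have e2 : cs.simple i * cs.simple i * (cs.simple i)⁻¹ = cs.simple i := by simp
  rw [e2, eta_simple] at h2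
  rw [mul_inv_cancel, eta_one] at h3
  rw [h1, h2]
  have : eta cs u⁻¹ (u * cs.simple i * u⁻¹) + (1 + eta cs u (cs.simple i)) =
      1 + (eta cs u⁻¹ (u * cs.simple i * u⁻¹) + eta cs u (cs.simple i)) := by ring
  rw [this, ← h3, add_zero]

theorem zmod2_cases (a : ZMod 2) : a = 0 ∨ a = 1 := by
  revert a; decide

theorem isRightInversion_iff_eta (w t : W) : cs.IsRightInversion w t ↔ eta cs w t = 1 := by
  classical
  have key : ∀ w t : W, eta cs w t = 1 → cs.IsRightInversion w t := by
    intro w t h
    obtain ⟨ω, hω, rfl⟩ := cs.exists_isReduced w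
    rw [eta_wordProd] at h
    have : t ∈ cs.rightInvSeq ω := by
      by_contra hn
      rw [List.count_eq_zero_of_not_mem hn] at h
      simp at h
    exact cs.isRightInversion_of_mem_rightInvSeq hω this
  constructor
  · intro h
    rcases zmod2_cases (eta cs w t) with h0 | h1
    · exfalso
      have h2 := eta_mul cs w t t
      rw [eta_reflection cs h.1] at h2
      have e : t * t * t⁻¹ = t := by group
      rw [e, h0, add_zero] at h2
      have h3 := (key (w * t) t h2).2
      rw [mul_assoc, h.1.mul_self, mul_one] at h3
      have h4 := h.2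
      omega
    · exact h1
  · exact key w t

/-- Exchange: a right inversion of a reduced word occurs in its right inversion sequence. -/
theorem mem_rightInvSeq_of_isRightInversion {ω : List B} {t : W}
    (h : cs.IsRightInversion (cs.wordProd ω) t) : t ∈ cs.rightInvSeq ω := by
  classical
  rw [isRightInversion_iff_eta, eta_wordProd] at h
  by_contra hn
  rw [List.count_eq_zero_of_not_mem hn] at h
  simp at h

theorem mem_leftInvSeq_of_isLeftInversion {ω : List B} {t : W}
    (h : cs.IsLeftInversion (cs.wordProd ω) t) : t ∈ cs.leftInvSeq ω := by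
  rw [← isRightInversion_inv_iff, ← wordProd_reverse] at h
  have := mem_rightInvSeq_of_isRightInversion cs h
  rwa [rightInvSeq_reverse, List.mem_reverse] at this

/-- The set of left inversions of `w`. -/
def N (w : W) : Set W := {t | cs.IsLeftInversion w t}

theorem mem_N {w t : W} : t ∈ N cs w ↔ cs.IsLeftInversion w t := Iff.rfl

theorem mem_N_iff_eta (w t : W) : t ∈ N cs w ↔ eta cs w⁻¹ t = 1 := by
  rw [mem_N, ← isRightInversion_inv_iff, isRightInversion_iff_eta]

/-- The cocycle property of left inversion sets. -/
theorem mem_N_mul (x y t : W) :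
    t ∈ N cs (x * y) ↔ ¬ (t ∈ N cs x ↔ x⁻¹ * t * x ∈ N cs y) := by
  rw [mem_N_iff_eta, mem_N_iff_eta, mem_N_iff_eta, mul_inv_rev, eta_mul, inv_inv]
  rcases zmod2_cases (eta cs x⁻¹ t) with h1 | h1 <;>
    rcases zmod2_cases (eta cs y⁻¹ (x⁻¹ * t * x)) with h2 | h2 <;> rw [h1, h2] <;> decide

end Pool.Agent.LibMP272625
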