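import Pool.Agent.Lib_MP_272625_co.Bruhat

set_option autoImplicit false
set_option maxHeartbeats 2000000

/-!
Joins in the weak order of a finite Coxeter group and Bruhat paths.
-/

namespace Pool.Agent.LibMP272625

open CoxeterSystem List

variable {B W : Type*} [Group W] {M : CoxeterMatrix B} (cs : CoxeterSystem M W)

/-- `x` is reached from the identity by a `(u, v)`-Bruhat path. -/
def PathTo (u v x : W) : Prop :=
  ∃ (n : ℕ) (f : ℕ → W), f 0 = 1 ∧ f n = x ∧
    ∀ i, i < n → ∃ r : W, cs.IsReflection r ∧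
      (cs.length (r * u) < cs.length u ∨ cs.length (r * v) < cs.length v) ∧
      f (i + 1) = r * f i ∧ cs.length (f i) < cs.length (f (i + 1))

theorem PathTo.one (u v : W) : PathTo cs u v 1 :=
  ⟨0, fun _ => 1, rfl, rfl, fun i hi => absurd hi (Nat.not_lt_zero i)⟩

theorem PathTo.step {u v x r : W} (h : PathTo cs u v x) (hr : cs.IsReflection r)
    (hl : cs.length (r * u) < cs.length u ∨ cs.length (r * v) < cs.length v)
    (hx : cs.length x < cs.length (r * x)) : PathTo cs u v (r * x) := by
  obtain ⟨n, f, h0, hn, hf⟩ := h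
  refine ⟨n + 1, fun k => if k ≤ n then f k else r * x, ?_, ?_, ?_⟩
  · simp [h0]
  · simp
  · intro i hi
    by_cases h1 : i < n
    · obtain ⟨r', h2, h3, h4, h5⟩ := hf i h1
      refine ⟨r', h2, h3, ?_, ?_⟩
      · have e1 : i ≤ n := h1.le
        have e2 : i + 1 ≤ n := h1
        simp only [e1, e2, if_true]; exact h4
      · have e1 : i ≤ n := h1.le
        have e2 : i + 1 ≤ n := h1
        simp only [e1, e2, if_true]; exact h5
    · have h2 : i = n := by omega
      subst h2
      refine ⟨r, hr, hl, ?_, ?_⟩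
      · simp [hn]
      · simp [hn]; exact hx

/-- Labels in `N j`, so the end point (if a reflection) is in `N j`. -/
theorem mem_of_path {u v j : W} (hu : N cs u ⊆ N cs j) (hv : N cs v ⊆ N cs j) (n : ℕ)
    (f : ℕ → W) (h0 : f 0 = 1)
    (hf : ∀ i, i < n → ∃ r : W, cs.IsReflection r ∧
      (cs.length (r * u) < cs.length u ∨ cs.length (r * v) < cs.length v) ∧
      f (i + 1) = r * f i ∧ cs.length (f i) < cs.length (f (i + 1))) :
    ∀ k, k ≤ n → (k = 0 ∨ cs.length (j⁻¹ * f k) < cs.length j) := by
  intro k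
  induction k with
  | zero => intro _; left; rfl
  | succ k ih =>
    intro hk
    right
    obtain ⟨r, hr, hl, hfk, hlen⟩ := hf k (by omega)
    have hrj : r ∈ N cs j := by
      rcases hl with h | h
      · exact hu ⟨hr, h⟩
      · exact hv ⟨hr, h⟩
    have hle : cs.length (j⁻¹ * f k) ≤ cs.length j := by
      rcases ih (by omega) with h | h
      · rw [h, h0, mul_one, length_inv]
      · exact h.le
    have hrf : r ∉ N cs (f k) := by
      intro h
      have := h.2
      rw [← hfk] at this
      omega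
    -- z = j⁻¹ * f k, ρ = j⁻¹ r j
    have h1 := mem_N_mul cs j (j⁻¹ * f k) r
    have e1 : j * (j⁻¹ * f k) = f k := by group
    rw [e1] at h1
    have h2 : j⁻¹ * r * j ∈ N cs (j⁻¹ * f k) := by tauto
    have h3 := h2.2
    have e2 : j⁻¹ * r * j * (j⁻¹ * f k) = j⁻¹ * f (k + 1) := by rw [hfk]; group
    rw [e2] at h3
    omega

variable [Finite W]

/-- Every `x` with `j⁻¹ x ≤ j⁻¹` in Bruhat order is reached by a `(u, v)`-Bruhat path. -/
theorem path_of_br {u v j : W}
    (ha : N cs (j⁻¹ * u) ⊆ N cs j⁻¹) (hb : N cs (j⁻¹ * v) ⊆ N cs j⁻¹)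
    (hab : ∀ i : B, ¬ (cs.simple i ∈ N cs (j⁻¹ * u) ∧ cs.simple i ∈ N cs (j⁻¹ * v))) (n : ℕ) :
    ∀ x : W, cs.length x ≤ n → Br cs (j⁻¹ * x) j⁻¹ → PathTo cs u v x := by
  induction n with
  | zero =>
    intro x hx _
    have : x = 1 := by rw [← cs.length_eq_zero_iff]; omega
    rw [this]; exact PathTo.one cs u v
  | succ n ih =>
    intro x hx hbr
    by_cases hx1 : x = 1
    · rw [hx1]; exact PathTo.one cs u v
    have hne : j⁻¹ * x ≠ j⁻¹ := by simpa using hx1
    obtain ⟨r, hrw, hrab, hrz, hrbr⟩ := main_step cs ha hb hab hbr hne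
    -- the label
    set t := j * r * j⁻¹ with ht
    have hrR : cs.IsReflection r := hrw.1
    have htR : cs.IsReflection t := hrR.conj j
    have htt : t * t = 1 := htR.mul_self
    have e0 : j⁻¹ * (t * x) = r * (j⁻¹ * x) := by rw [ht]; group
    have htx : t ∈ N cs x := by
      have h1 := mem_N_mul cs j (j⁻¹ * x) t
      have e1 : j * (j⁻¹ * x) = x := by group
      have e2 : j⁻¹ * t * j = r := by rw [ht]; group
      rw [e1, e2] at h1
      have h2 : t ∈ N cs j := by
        have h3 := mem_N_inv cs (w := j) (t := r)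
        rw [← ht] at h3
        exact h3.1 hrw
      tauto
    have hlabel : ∀ y : W, r ∉ N cs (j⁻¹ * y) → cs.length (t * y) < cs.length y := by
      intro y hy
      have h1 := mem_N_mul cs (j⁻¹ * y) y⁻¹ r
      have e1 : j⁻¹ * y * y⁻¹ = j⁻¹ := by group
      rw [e1] at h1
      have h2 : (j⁻¹ * y)⁻¹ * r * (j⁻¹ * y) ∈ N cs y⁻¹ := by tauto
      rw [mem_N_inv] at h2
      have e2 : y * ((j⁻¹ * y)⁻¹ * r * (j⁻¹ * y)) * y⁻¹ = t := by rw [ht]; group
      rw [e2] at h2
      exact h2.2
    have h1 := ih (t * x) (by have := htx.2; omega) (by rw [e0]; exact hrbr)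
    have e3 : t * (t * x) = x := by rw [← mul_assoc, htt, one_mul]
    have h2 := PathTo.step cs (r := t) h1 htR
      (by rcases hrab with h | h
          · left; exact hlabel u h
          · right; exact hlabel v h)
      (by rw [e3]; exact htx.2)
    rw [e3] at h2
    exact h2

/-- The theorem. -/
theorem join_iff_path {u v j : W}
    (hu : cs.length u + cs.length (u⁻¹ * j) = cs.length j)
    (hv : cs.length v + cs.length (v⁻¹ * j) = cs.length j)
    (hj : ∀ w : W, cs.length u + cs.length (u⁻¹ * w) = cs.length w →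
        cs.length v + cs.length (v⁻¹ * w) = cs.length w →
        cs.length j + cs.length (j⁻¹ * w) = cs.length w) {t : W} (ht : cs.IsReflection t) :
    cs.length (t * j) < cs.length j ↔ PathTo cs u v t := by
  have hinv : ∀ y : W, cs.length (j⁻¹ * y) = cs.length (y⁻¹ * j) := by
    intro y
    rw [← cs.length_inv (j⁻¹ * y)]
    congr 1; group
  constructor
  · intro htj
    have hsub : ∀ y : W, cs.length y + cs.length (y⁻¹ * j) = cs.length j →
        N cs (j⁻¹ * y) ⊆ N cs j⁻¹ := by
      intro y hy
      rw [N_subset_iff]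
      have e : (j⁻¹ * y)⁻¹ * j⁻¹ = y⁻¹ := by group
      rw [e, hinv, length_inv, length_inv]
      omega
    have hab : ∀ i : B,
        ¬ (cs.simple i ∈ N cs (j⁻¹ * u) ∧ cs.simple i ∈ N cs (j⁻¹ * v)) := by
      rintro i ⟨h1, h2⟩
      have hw := hsub u hu h1
      have key : ∀ y : W, cs.length y + cs.length (y⁻¹ * j) = cs.length j →
          cs.simple i ∈ N cs (j⁻¹ * y) →
          cs.length y + cs.length (y⁻¹ * (j * cs.simple i)) = cs.length (j * cs.simple i) := by
        intro y hy h
        have e1 : cs.length (y⁻¹ * (j * cs.simple i)) = cs.length (cs.simple i * (j⁻¹ * y)) := by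
          rw [← cs.length_inv (y⁻¹ * (j * cs.simple i))]
          congr 1
          rw [mul_inv_rev, mul_inv_rev, inv_simple, inv_inv, mul_assoc]
        have e2 : cs.length (j * cs.simple i) = cs.length (cs.simple i * j⁻¹) := by
          rw [← cs.length_inv (j * cs.simple i), mul_inv_rev, inv_simple]
        have h3 := h.2
        have h4 := hw.2
        have h5 := cs.length_simple_mul (j⁻¹ * y) i
        have h6 := cs.length_simple_mul j⁻¹ i
        rw [length_inv] at h4 h6
        rw [hinv] at h3 h5
        omega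
      have h3 := hj (j * cs.simple i) (key u hu h1) (key v hv h2)
      have h4 := hw.2
      have e2 : cs.length (j * cs.simple i) = cs.length (cs.simple i * j⁻¹) := by
        rw [← cs.length_inv (j * cs.simple i), mul_inv_rev, inv_simple]
      rw [length_inv] at h4
      omega
    apply path_of_br cs (hsub u hu) (hsub v hv) hab _ t le_rfl
    refine Relation.ReflTransGen.single ?_
    refine ⟨j⁻¹ * t * j, by simpa using ht.conj j⁻¹, ?_, ?_⟩
    · have : j⁻¹ * t * j * (j⁻¹ * t) = j⁻¹ * (t * t) := by group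
      rw [this, ht.mul_self, mul_one]
    · rw [hinv, ht.inv, length_inv]; exact htj
  · rintro ⟨n, f, h0, hn, hf⟩
    have h1 := mem_of_path cs ((N_subset_iff cs).2 hu) ((N_subset_iff cs).2 hv) n f h0 hf n le_rfl
    rcases h1 with h | h
    · exfalso
      rw [h, h0] at hn
      have h2 := ht.odd_length
      rw [← hn] at h2
      simp at h2
    · rw [hn, hinv, ht.inv] at h
      exact h

end Pool.Agent.LibMP272625
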