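import Pool.Agent.Lib_MP_272625_co.Weak

set_option autoImplicit false
set_option maxHeartbeats 2000000

/-!
The key lemma on weak order: an element `q` of minimal length among the elements below `w`
that are not below `z` is join prime in `[1, w]`.
-/

namespace Pool.Agent.LibMP272625

open CoxeterSystem List

variable {B W : Type*} [Group W] {M : CoxeterMatrix B} (cs : CoxeterSystem M W) [Finite W]

omit [Finite W] in
/-- A step: from a counterexample `x` one finds a pair `(y, r)`. -/
theorem exists_pair {w q β : W} (hq : N cs q ⊆ N cs w) (hβ : β ∈ N cs q) (n : ℕ) :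
    ∀ x : W, cs.length (x⁻¹ * q) ≤ n → N cs x ⊆ N cs w → β ∈ N cs x → ¬ N cs q ⊆ N cs x →
      ∃ (y : W) (r : B), N cs y ⊆ N cs w ∧ N cs q ⊆ N cs y ∧
        y * cs.simple r * y⁻¹ ∈ N cs q ∧ y * cs.simple r * y⁻¹ ≠ β := by
  induction n with
  | zero =>
    intro x hn hx hβx hqx
    exfalso
    have h1 : x⁻¹ * q = 1 := by
      rw [← cs.length_eq_zero_iff]; omega
    have h2 : q = x := by
      have : q = x * (x⁻¹ * q) := by group
      rw [this, h1, mul_one]
    exact hqx (by rw [h2])
  | succ n ih =>
    intro x hn hx hβx hqx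
    have hg : x⁻¹ * q ≠ 1 := by
      intro h1
      have h2 : q = x := by
        have : q = x * (x⁻¹ * q) := by group
        rw [this, h1, mul_one]
      exact hqx (by rw [h2])
    obtain ⟨r, hr⟩ := cs.exists_leftDescent_of_ne_one hg
    have hr' : cs.length (cs.simple r * (x⁻¹ * q)) < cs.length (x⁻¹ * q) := hr
    have hrN : cs.simple r ∈ N cs (x⁻¹ * q) := by
      rw [simple_mem_N_iff]; exact hr'
    set s := cs.simple r with hs
    have hmem : x * s * x⁻¹ ∈ N cs q ↔ x * s * x⁻¹ ∉ N cs x := by
      have h1 := mem_N_mul cs x (x⁻¹ * q) (x * s * x⁻¹)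
      have e1 : x * (x⁻¹ * q) = q := by group
      have e2 : x⁻¹ * (x * s * x⁻¹) * x = s := by group
      rw [e1, e2] at h1
      tauto
    have hxs : ∀ t, t ∈ N cs (x * s) ↔ ¬ (t ∈ N cs x ↔ t = x * s * x⁻¹) := by
      intro t; exact mem_N_mul_simple cs
    have hlen : cs.length ((x * s)⁻¹ * q) ≤ n := by
      have e : (x * s)⁻¹ * q = s * (x⁻¹ * q) := by
        rw [mul_inv_rev, hs, inv_simple, mul_assoc]
      rw [e]; omega
    by_cases hc : x * s * x⁻¹ ∈ N cs x
    · have hne : x * s * x⁻¹ ∉ N cs q := by tauto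
      have hβne : β ≠ x * s * x⁻¹ := by
        rintro rfl; exact hne hβ
      have h1 : N cs (x * s) ⊆ N cs x := by
        intro t ht
        rw [hxs] at ht
        by_contra hcon
        have : t = x * s * x⁻¹ := by tauto
        rw [this] at hcon
        exact hcon hc
      apply ih (x * s) hlen (h1.trans hx)
      · rw [hxs]; tauto
      · intro h; exact hqx (h.trans h1)
    · have hin : x * s * x⁻¹ ∈ N cs q := by tauto
      have hβne : β ≠ x * s * x⁻¹ := by
        rintro rfl; exact hc hβx
      have h1 : N cs (x * s) ⊆ N cs w := by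
        intro t ht
        rw [hxs] at ht
        by_cases ht2 : t ∈ N cs x
        · exact hx ht2
        · have : t = x * s * x⁻¹ := by tauto
          rw [this]; exact hq hin
      have h2 : β ∈ N cs (x * s) := by rw [hxs]; tauto
      by_cases h3 : N cs q ⊆ N cs (x * s)
      · refine ⟨x * s, r, h1, h3, ?_, ?_⟩
        · have e : x * s * s * (x * s)⁻¹ = x * s * x⁻¹ := by
            have : x * s * s * (x * s)⁻¹ = x * s * (s * s⁻¹) * x⁻¹ := by group
            rw [this, mul_inv_cancel, mul_one]
          rw [← hs, e]; exact hin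
        · have e : x * s * s * (x * s)⁻¹ = x * s * x⁻¹ := by
            have : x * s * s * (x * s)⁻¹ = x * s * (s * s⁻¹) * x⁻¹ := by group
            rw [this, mul_inv_cancel, mul_one]
          rw [← hs, e]; exact hβne.symm
      · exact ih (x * s) hlen h1 h2 h3

/-- The key lemma. -/
theorem star {w z q : W} {i : B} (hq : N cs q ⊆ N cs w) (hqz : ¬ N cs q ⊆ N cs z)
    (hmin : ∀ x, N cs x ⊆ N cs w → ¬ N cs x ⊆ N cs z → cs.length q ≤ cs.length x)
    (hi : cs.length (q * cs.simple i) < cs.length q) :
    ∀ x, N cs x ⊆ N cs w → q * cs.simple i * q⁻¹ ∈ N cs x → N cs q ⊆ N cs x := by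
  have hmin' : ∀ x, N cs x ⊆ N cs w → cs.length x < cs.length q → N cs x ⊆ N cs z := by
    intro x hx hl
    by_contra hc
    have := hmin x hx hc
    omega
  set β := q * cs.simple i * q⁻¹ with hβdef
  have hβ : β ∈ N cs q := (conj_simple_mem_N_iff cs).2 hi
  have hqs : ∀ t, t ∈ N cs (q * cs.simple i) ↔ ¬ (t ∈ N cs q ↔ t = β) := by
    intro t; exact mem_N_mul_simple cs
  have hqs1 : N cs (q * cs.simple i) ⊆ N cs q := by
    intro t ht
    rw [hqs] at ht
    by_contra hc
    have : t = β := by tauto
    exact hc (this ▸ hβ)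
  have hqsz : N cs (q * cs.simple i) ⊆ N cs z := hmin' _ (hqs1.trans hq) hi
  have hβz : β ∉ N cs z := by
    intro h
    apply hqz
    intro t ht
    by_cases h2 : t = β
    · rw [h2]; exact h
    · apply hqsz; rw [hqs]; tauto
  have huniq : ∀ r : B, q * cs.simple r * q⁻¹ ∈ N cs q → q * cs.simple r * q⁻¹ = β := by
    intro r hr
    by_contra hne
    have hlr : cs.length (q * cs.simple r) < cs.length q := (conj_simple_mem_N_iff cs).1 hr
    have hmr : ∀ t, t ∈ N cs (q * cs.simple r) ↔ ¬ (t ∈ N cs q ↔ t = q * cs.simple r * q⁻¹) := by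
      intro t; exact mem_N_mul_simple cs
    have h1 : N cs (q * cs.simple r) ⊆ N cs q := by
      intro t ht
      rw [hmr] at ht
      by_contra hc
      have : t = q * cs.simple r * q⁻¹ := by tauto
      exact hc (this ▸ hr)
    have h2 := hmin' _ (h1.trans hq) hlr
    apply hβz
    apply h2
    rw [hmr]
    have : β ≠ q * cs.simple r * q⁻¹ := fun h => hne h.symm
    tauto
  intro x hx hβx
  by_contra hqx
  obtain ⟨y₀, r₀, hp₀⟩ := exists_pair cs hq hβ _ x le_rfl hx hβx hqx
  -- minimality of the length of `y`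
  suffices H : ∀ n : ℕ, ∀ (y : W) (r : B), cs.length y ≤ n → N cs y ⊆ N cs w → N cs q ⊆ N cs y →
      y * cs.simple r * y⁻¹ ∈ N cs q → y * cs.simple r * y⁻¹ ≠ β → False from
    H _ y₀ r₀ le_rfl hp₀.1 hp₀.2.1 hp₀.2.2.1 hp₀.2.2.2
  intro n
  induction n with
  | zero =>
    intro y r hn _ hqy hr _
    have h1 := (hqy hr).2
    omega
  | succ n ih =>
    intro y r hn hyw hqy hρ hρβ
    set ρ := y * cs.simple r * y⁻¹ with hρdef
    have hρy : ρ ∈ N cs y := hqy hρ
    -- `y ≠ q`
    have hyq : q⁻¹ * y ≠ 1 := by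
      intro h
      have h2 : y = q := by
        have : y = q * (q⁻¹ * y) := by group
        rw [this, h, mul_one]
      apply hρβ
      have h3 : ρ = q * cs.simple r * q⁻¹ := by rw [hρdef, h2]
      rw [h3]; apply huniq; rw [← h3]; exact hρ
    obtain ⟨r', hr'⟩ := cs.exists_rightDescent_of_ne_one hyq
    have hr'1 : cs.length ((q⁻¹ * y) * cs.simple r') < cs.length (q⁻¹ * y) := hr'
    have hr'2 : (q⁻¹ * y) * cs.simple r' * (q⁻¹ * y)⁻¹ ∈ N cs (q⁻¹ * y) :=
      (conj_simple_mem_N_iff cs).2 hr'1
    set ρ' := y * cs.simple r' * y⁻¹ with hρ'def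
    have hρ'1 : ρ' ∈ N cs y ↔ ρ' ∉ N cs q := by
      have h1 := mem_N_mul cs q (q⁻¹ * y) ρ'
      have e1 : q * (q⁻¹ * y) = y := by group
      have e2 : q⁻¹ * ρ' * q = (q⁻¹ * y) * cs.simple r' * (q⁻¹ * y)⁻¹ := by
        rw [hρ'def]; group
      rw [e1, e2] at h1
      tauto
    have hρ'q : ρ' ∉ N cs q := by
      intro h
      exact (hρ'1.1 (hqy h)) h
    have hρ'y : ρ' ∈ N cs y := hρ'1.2 hρ'q
    have hρρ' : ρ' ≠ ρ := by
      intro h; rw [h] at hρ'q; exact hρ'q hρ
    have hrr' : cs.simple r' ≠ cs.simple r := by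
      intro h; apply hρρ'; rw [hρ'def, hρdef, h]
    -- all reflections of `V` are right inversions of `y`
    have hV : ∀ t ∈ V cs r r', cs.IsReflection t → y * t * y⁻¹ ∈ N cs y := by
      intro t ht htr
      rw [← mem_N_inv]
      apply mem_N_of_V cs (i := r) (j := r') _ _ t ht htr
      · rw [mem_N_inv]; exact hρy
      · rw [mem_N_inv]; exact hρ'y
    set k := y⁻¹ * q with hk
    have hyk : y * k = q := by rw [hk]; group
    have hE1 : ∀ t ∈ V cs r r', cs.IsReflection t → (y * t * y⁻¹ ∈ N cs q ↔ t ∉ N cs k) := by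
      intro t ht htr
      have h1 := mem_N_mul cs y k (y * t * y⁻¹)
      have e : y⁻¹ * (y * t * y⁻¹) * y = t := by group
      rw [hyk, e] at h1
      have := hV t ht htr
      tauto
    have hrk : cs.simple r ∉ N cs k :=
      (hE1 _ (left_mem_V cs r r') (cs.isReflection_simple r)).1 hρ
    have hr'k : cs.simple r' ∈ N cs k := by
      by_contra h
      exact hρ'q ((hE1 _ (right_mem_V cs r r') (cs.isReflection_simple r')).2 h)
    -- `β = y b y⁻¹` with `b ∈ V` a reflection
    have hb : ∃ b ∈ V cs r r', cs.IsReflection b ∧ β = y * b * y⁻¹ := by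
      obtain ⟨a, ha, v', hkv, hv'⟩ := coset_decomp cs r r' k
      have hE2 : ∀ t ∈ V cs r r', (t ∈ N cs k ↔ t ∈ N cs a) := by
        intro t ht
        rw [hkv]; exact coset_mem_N cs ha hv' ht
      have hr'a : cs.simple r' ∈ N cs a := (hE2 _ (right_mem_V cs r r')).1 hr'k
      have hya : ∀ t, t ∈ N cs (y * a) ↔ ¬ (t ∈ N cs y ↔ y⁻¹ * t * y ∈ N cs a) := by
        intro t; exact mem_N_mul cs y a t
      have hconj : ∀ t, y * (y⁻¹ * t * y) * y⁻¹ = t := by intro t; group
      have h1 : N cs q ⊆ N cs (y * a) := by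
        intro τ hτ
        rw [hya]
        have h2 := hqy hτ
        have h3 : y⁻¹ * τ * y ∉ N cs a := by
          intro h4
          have h5 := N_subset_V cs ha _ h4
          have h6 := (hE1 _ h5 h4.1).1 (by rw [hconj]; exact hτ)
          exact h6 ((hE2 _ h5).2 h4)
        tauto
      have h2 : N cs (y * a) ⊆ N cs y := by
        intro τ hτ
        rw [hya] at hτ
        by_contra hc
        have h4 : y⁻¹ * τ * y ∈ N cs a := by tauto
        have h5 := hV _ (N_subset_V cs ha _ h4) h4.1
        rw [hconj] at h5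
        exact hc h5
      have hlt : cs.length (y * a) < cs.length y := by
        have h3 := (N_subset_iff cs).1 h2
        have h4 : (y * a)⁻¹ * y ≠ 1 := by
          intro h5
          have h6 : a = 1 := by
            have h7 : a = ((y * a)⁻¹ * y)⁻¹ := by group
            rw [h7, h5, inv_one]
          rw [h6] at hr'a
          exact N_one cs _ hr'a
        have h5 : cs.length ((y * a)⁻¹ * y) ≠ 0 := by
          rw [Ne, cs.length_eq_zero_iff]; exact h4
        omega
      have hex : ∃ r₁ : B, (r₁ = r ∨ r₁ = r') ∧ (y * a) * cs.simple r₁ * (y * a)⁻¹ ∈ N cs (y * a) := by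
        by_contra hcon
        push Not at hcon
        have h3 : cs.simple r ∉ N cs (y * a)⁻¹ := by
          rw [mem_N_inv]; exact hcon r (Or.inl rfl)
        have h4 : cs.simple r' ∉ N cs (y * a)⁻¹ := by
          rw [mem_N_inv]; exact hcon r' (Or.inr rfl)
        have h5 := not_mem_N_of_V cs h3 h4 (a⁻¹ * cs.simple r * a)
          (Subgroup.mul_mem _ (Subgroup.mul_mem _ (Subgroup.inv_mem _ ha) (left_mem_V cs r r')) ha)
        rw [mem_N_inv] at h5
        apply h5
        have e : (y * a) * (a⁻¹ * cs.simple r * a) * (y * a)⁻¹ = ρ := by rw [hρdef]; group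
        rw [e]; exact h1 hρ
      obtain ⟨r₁, hr₁, hr₁N⟩ := hex
      have hr₁V : cs.simple r₁ ∈ V cs r r' := by
        rcases hr₁ with rfl | rfl
        · exact left_mem_V cs _ _
        · exact right_mem_V cs _ _
      have hbV : a * cs.simple r₁ * a⁻¹ ∈ V cs r r' :=
        Subgroup.mul_mem _ (Subgroup.mul_mem _ ha hr₁V) (Subgroup.inv_mem _ ha)
      have hbR : cs.IsReflection (a * cs.simple r₁ * a⁻¹) := ⟨a, r₁, rfl⟩
      have e : (y * a) * cs.simple r₁ * (y * a)⁻¹ = y * (a * cs.simple r₁ * a⁻¹) * y⁻¹ := by group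
      refine ⟨a * cs.simple r₁ * a⁻¹, hbV, hbR, ?_⟩
      by_contra hne
      apply ih (y * a) r₁ (by omega) (h2.trans hyw) h1
      · rw [e, hE1 _ hbV hbR, hE2 _ hbV]
        rw [hya, e] at hr₁N
        have h3 := hV _ hbV hbR
        have e2 : y⁻¹ * (y * (a * cs.simple r₁ * a⁻¹) * y⁻¹) * y = a * cs.simple r₁ * a⁻¹ := by group
        rw [e2] at hr₁N
        tauto
      · rw [e]; exact fun h => hne h.symm
    obtain ⟨b, hbV, hbR, hbβ⟩ := hb
    have hρr : cs.IsReflection ρ := ⟨y, r, rfl⟩
    have hρinv : ρ⁻¹ = ρ := hρr.inv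
    -- Claim 1
    have hc1 : N cs (ρ * q) ⊆ N cs w := by
      intro τ hτ
      have h1 := mem_N_mul cs ρ q τ
      rw [hρinv] at h1
      by_cases h2 : τ ∈ N cs ρ
      · rcases coclosed cs _ q ρ τ le_rfl hρ h2 with h3 | h3
        · exact hq h3
        · exfalso; tauto
      · have h3 : ρ * τ * ρ ∈ N cs q := by tauto
        have h4 : ρ * τ * ρ ∈ N cs y := hqy h3
        have h5 : τ ∈ N cs (ρ * y) := by
          rw [mem_N_mul, hρinv]; tauto
        have e : ρ * y = y * cs.simple r := by rw [hρdef]; group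
        rw [e, mem_N_mul_simple] at h5
        by_cases h6 : τ ∈ N cs y
        · exact hyw h6
        · have h7 : τ = ρ := by rw [hρdef]; tauto
          rw [h7]; exact hq hρ
    have hc2 : N cs (ρ * q) ⊆ N cs z := hmin' _ hc1 hρ.2
    -- Claim 3
    have hc3 : ρ' ∈ N cs (ρ * q) := by
      rw [mem_N_mul, hρinv]
      have h1 : ρ' ∉ N cs ρ := by
        rw [hρdef, mem_N_mul, mem_N_mul_simple, ← hρdef]
        have e : (y * cs.simple r)⁻¹ * ρ' * (y * cs.simple r) =
            cs.simple r * cs.simple r' * cs.simple r := by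
          rw [hρ'def, mul_inv_rev, inv_simple]; group
        rw [e, mem_N_inv]
        have h2 : y * (cs.simple r * cs.simple r' * cs.simple r) * y⁻¹ ∈ N cs y := by
          apply hV
          · exact Subgroup.mul_mem _ (Subgroup.mul_mem _ (left_mem_V cs r r') (right_mem_V cs r r'))
              (left_mem_V cs r r')
          · have := (cs.isReflection_simple r').conj (cs.simple r)
            rwa [inv_simple] at this
        tauto
      have h2 : ρ * ρ' * ρ ∈ N cs q := by
        have e : ρ * ρ' * ρ = y * (cs.simple r * cs.simple r' * cs.simple r) * y⁻¹ := by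
          rw [hρdef, hρ'def]; group
        have hR : cs.IsReflection (cs.simple r * cs.simple r' * cs.simple r) := by
          have := (cs.isReflection_simple r').conj (cs.simple r)
          rwa [inv_simple] at this
        have hVm : cs.simple r * cs.simple r' * cs.simple r ∈ V cs r r' :=
          Subgroup.mul_mem _ (Subgroup.mul_mem _ (left_mem_V cs r r') (right_mem_V cs r r'))
              (left_mem_V cs r r')
        rw [e, hE1 _ hVm hR]
        intro h3
        have h4 : cs.simple r' ∈ N cs (cs.simple r * k) := by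
          rw [mem_N_simple_mul]; tauto
        have h5 : cs.simple r ∈ N cs (cs.simple r * k) := by
          rw [mem_N_simple_mul]
          have : cs.simple r * cs.simple r * cs.simple r = cs.simple r := by simp
          rw [this]; tauto
        have h6 := mem_N_of_V cs h5 h4 (cs.simple r * b * cs.simple r)
          (Subgroup.mul_mem _ (Subgroup.mul_mem _ (left_mem_V cs r r') hbV) (left_mem_V cs r r'))
          (by have := hbR.conj (cs.simple r); rwa [inv_simple] at this)
        rw [mem_N_simple_mul] at h6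
        have e2 : cs.simple r * (cs.simple r * b * cs.simple r) * cs.simple r = b := by
          have : cs.simple r * (cs.simple r * b * cs.simple r) * cs.simple r =
            (cs.simple r * cs.simple r) * b * (cs.simple r * cs.simple r) := by group
          rw [this]; simp
        rw [e2] at h6
        have h7 : ¬ (cs.simple r * b * cs.simple r = cs.simple r) := by
          intro h8
          have h9 : b = cs.simple r := by
            rw [← e2, h8]; simp
          apply hρβ
          rw [hbβ, h9]
        have h8 : b ∉ N cs k := (hE1 b hbV hbR).1 (by rw [← hbβ]; exact hβ)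
        tauto
      tauto
    have hc4 : ρ' ∈ N cs z := hc2 hc3
    have hc5 : ρ ∈ N cs z := by
      apply hqsz; rw [hqs]; tauto
    have hc6 : ∀ t ∈ V cs r r', cs.IsReflection t → (y * t * y⁻¹ ∈ N cs z ↔ t ∉ N cs (y⁻¹ * z)) := by
      intro t ht htr
      have h1 := mem_N_mul cs y (y⁻¹ * z) (y * t * y⁻¹)
      have e : y⁻¹ * (y * t * y⁻¹) * y = t := by group
      have e2 : y * (y⁻¹ * z) = z := by group
      rw [e2, e] at h1
      have := hV t ht htr
      tauto
    have hc7 : cs.simple r ∉ N cs (y⁻¹ * z) :=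
      (hc6 _ (left_mem_V cs r r') (cs.isReflection_simple r)).1 hc5
    have hc8 : cs.simple r' ∉ N cs (y⁻¹ * z) :=
      (hc6 _ (right_mem_V cs r r') (cs.isReflection_simple r')).1 hc4
    have hc9 := not_mem_N_of_V cs hc7 hc8 b hbV
    apply hβz
    rw [hbβ, hc6 b hbV hbR]
    exact hc9

end Pool.Agent.LibMP272625
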