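import Pool.Agent.Lib_MP_272625_co.Cocycle

set_option autoImplicit false

/-!
Left inversion sets, weak order, and rank two parabolic subgroups.
-/

namespace Pool.Agent.LibMP272625

open CoxeterSystem List

variable {B W : Type*} [Group W] {M : CoxeterMatrix B} (cs : CoxeterSystem M W)

theorem N_one (t : W) : t ∉ N cs 1 := by
  intro h
  have := h.2
  simp at this

theorem mem_N_simple {t : W} {i : B} : t ∈ N cs (cs.simple i) ↔ t = cs.simple i := by
  constructor
  · intro h
    have h1 : cs.IsLeftInversion (cs.wordProd [i]) t := by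
      rw [wordProd_singleton]; exact h
    have := mem_leftInvSeq_of_isLeftInversion cs h1
    simpa using this
  · rintro rfl
    refine ⟨cs.isReflection_simple i, ?_⟩
    simp

theorem isReflection_of_mem_N {w t : W} (h : t ∈ N cs w) : cs.IsReflection t := h.1

theorem mem_N_inv {w t : W} : t ∈ N cs w⁻¹ ↔ w * t * w⁻¹ ∈ N cs w := by
  have h := mem_N_mul cs w⁻¹ w t
  rw [inv_mul_cancel, inv_inv] at h
  have h0 := N_one cs t
  tauto

theorem mem_N_simple_mul {i : B} {y t : W} :
    t ∈ N cs (cs.simple i * y) ↔ ¬ (t = cs.simple i ↔ cs.simple i * t * cs.simple i ∈ N cs y) := by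
  rw [mem_N_mul, mem_N_simple, inv_simple]

theorem mem_N_mul_simple {i : B} {y t : W} :
    t ∈ N cs (y * cs.simple i) ↔ ¬ (t ∈ N cs y ↔ t = y * cs.simple i * y⁻¹) := by
  rw [mem_N_mul, mem_N_simple]
  have : (y⁻¹ * t * y = cs.simple i) ↔ t = y * cs.simple i * y⁻¹ := by
    constructor
    · intro h; rw [← h]; group
    · intro h; rw [h]; group
  rw [this]

theorem simple_mem_N_iff {i : B} {w : W} :
    cs.simple i ∈ N cs w ↔ cs.length (cs.simple i * w) < cs.length w := by
  constructor
  · intro h; exact h.2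
  · intro h; exact ⟨cs.isReflection_simple i, h⟩

/-- `w s w⁻¹ ∈ N w` iff `s` is a right descent of `w`. -/
theorem conj_simple_mem_N_iff {i : B} {w : W} :
    w * cs.simple i * w⁻¹ ∈ N cs w ↔ cs.length (w * cs.simple i) < cs.length w := by
  have e : w * cs.simple i * w⁻¹ * w = w * cs.simple i := by group
  constructor
  · intro h; have := h.2; rwa [e] at this
  · intro h; exact ⟨⟨w, i, rfl⟩, by rwa [e]⟩

theorem N_wordProd_of_isReduced {ω : List B} (h : cs.IsReduced ω) :
    N cs (cs.wordProd ω) = {t | t ∈ cs.leftInvSeq ω} := by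
  ext t
  constructor
  · intro ht; exact mem_leftInvSeq_of_isLeftInversion cs ht
  · intro ht; exact cs.isLeftInversion_of_mem_leftInvSeq h ht

theorem ncard_N (w : W) : (N cs w).ncard = cs.length w := by
  classical
  obtain ⟨ω, hω, rfl⟩ := cs.exists_isReduced w
  rw [N_wordProd_of_isReduced cs hω]
  have : {t | t ∈ cs.leftInvSeq ω} = ((cs.leftInvSeq ω).toFinset : Set W) := by
    ext t; simp
  rw [this, Set.ncard_coe_finset, List.toFinset_card_of_nodup hω.nodup_leftInvSeq,
    length_leftInvSeq, hω.eq]

variable [Finite W]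

theorem length_inv_mul (x z : W) :
    cs.length (x⁻¹ * z) = (N cs x \ N cs z).ncard + (N cs z \ N cs x).ncard := by
  rw [← ncard_N]
  have h : N cs (x⁻¹ * z) = (fun t => x⁻¹ * t * x) '' ((N cs x \ N cs z) ∪ (N cs z \ N cs x)) := by
    ext t
    have h1 : t ∈ N cs (x⁻¹ * z) ↔ ¬ (x * t * x⁻¹ ∈ N cs x ↔ x * t * x⁻¹ ∈ N cs z) := by
      rw [mem_N_mul, mem_N_inv, inv_inv]
    rw [h1]
    simp only [Set.mem_image, Set.mem_union, Set.mem_sdiff]
    constructor
    · intro h2
      refine ⟨x * t * x⁻¹, ?_, by group⟩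
      tauto
    · rintro ⟨a, ha, rfl⟩
      have e : x * (x⁻¹ * a * x) * x⁻¹ = a := by group
      rw [e]
      tauto
  have hinj : Function.Injective (fun t => x⁻¹ * t * x) := by
    intro a b hab
    simpa using hab
  rw [h, Set.ncard_image_of_injective _ hinj]
  apply Set.ncard_union_eq
  · rw [Set.disjoint_left]
    rintro a ⟨h1, h2⟩ ⟨h3, h4⟩
    exact h2 h3
  · exact Set.toFinite _
  · exact Set.toFinite _

theorem ncard_aux (A S : Set W) : (A \ S).ncard + (A ∩ S).ncard = A.ncard := by
  rw [← Set.ncard_union_eq _ (Set.toFinite _) (Set.toFinite _), Set.sdiff_union_inter]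
  rw [Set.disjoint_left]
  rintro a ⟨h1, h2⟩ ⟨h3, h4⟩
  exact h2 h4

theorem N_subset_iff {x z : W} :
    N cs x ⊆ N cs z ↔ cs.length x + cs.length (x⁻¹ * z) = cs.length z := by
  have h1 := length_inv_mul cs x z
  have h2 : (N cs x \ N cs z).ncard + (N cs x ∩ N cs z).ncard = cs.length x := by
    rw [← ncard_N cs x]
    exact ncard_aux _ _
  have h3 : (N cs z \ N cs x).ncard + (N cs x ∩ N cs z).ncard = cs.length z := by
    rw [← ncard_N cs z, Set.inter_comm]
    exact ncard_aux _ _
  constructor
  · intro h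
    have h4 : N cs x \ N cs z = ∅ := Set.sdiff_eq_empty.2 h
    rw [h4, Set.ncard_empty] at h1 h2
    omega
  · intro h
    have h4 : (N cs x \ N cs z).ncard = 0 := by omega
    rw [Set.ncard_eq_zero (Set.toFinite _)] at h4
    exact Set.sdiff_eq_empty.1 h4

theorem length_le_of_N_subset {x z : W} (h : N cs x ⊆ N cs z) : cs.length x ≤ cs.length z := by
  have := (N_subset_iff cs).1 h; omega

omit [Finite W] in
/-- Coclosedness of inversion sets, in conjugation form. -/
theorem coclosed (n : ℕ) : ∀ (q g r : W), cs.length q ≤ n → g ∈ N cs q → r ∈ N cs g →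
    r ∈ N cs q ∨ g * r * g ∈ N cs q := by
  induction n with
  | zero =>
    intro q g r hn hg _
    have := hg.2; omega
  | succ n ih =>
    intro q g r hn hg hr
    have hq1 : q ≠ 1 := by
      rintro rfl; exact N_one cs _ hg
    obtain ⟨i, hi⟩ := cs.exists_leftDescent_of_ne_one hq1
    have hi' : cs.length (cs.simple i * q) < cs.length q := hi
    set s := cs.simple i with hs
    have hss : s * s = 1 := by simp [hs]
    have hsN : s ∈ N cs q := by rw [hs, simple_mem_N_iff]; exact hi'
    have hmem : ∀ t, t ∈ N cs q ↔ ¬ (t = s ↔ s * t * s ∈ N cs (s * q)) := by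
      intro t
      have := mem_N_simple_mul cs (i := i) (y := s * q) (t := t)
      rw [← hs, ← mul_assoc, hss, one_mul] at this
      exact this
    by_cases h1 : r = s
    · left; rw [h1]; exact hsN
    by_cases h2 : g * r * g = s
    · right; rw [h2]; exact hsN
    have hgr : cs.IsReflection g := hg.1
    have hgg : g * g = 1 := hgr.mul_self
    have hg1 : g ≠ s := by
      rintro rfl
      rw [hs, mem_N_simple] at hr
      exact h1 (by rw [hs]; exact hr)
    have hg' : s * g * s ∈ N cs (s * q) := by
      have := (hmem g).1 hg; tauto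
    have hr' : s * r * s ∈ N cs (s * g * s) := by
      -- r ∈ N (s * ((s g s) * s))
      have e1 : g = s * (s * g * s * s) := by
        have : s * (s * g * s * s) = (s * s) * g * (s * s) := by group
        rw [this, hss]; group
      have e2 := mem_N_simple_mul cs (i := i) (y := s * g * s * s) (t := r)
      rw [← hs, ← e1] at e2
      have e3 := mem_N_mul_simple cs (i := i) (y := s * g * s) (t := s * r * s)
      rw [← hs] at e3
      have e4 : (s * g * s) * s * (s * g * s)⁻¹ = s * (g * s * g) * s := by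
        have hgi : g⁻¹ = g := hgr.inv
        have hsi : s⁻¹ = s := by simp [hs]
        rw [mul_inv_rev, mul_inv_rev, hgi, hsi]
        have : s * g * s * s * (s * (g * s)) = s * g * (s * s) * s * g * s := by group
        rw [this, hss]; group
      rw [e4] at e3
      have e5 : ¬ (s * r * s = s * (g * s * g) * s) := by
        intro h
        apply h2
        have h6 : r = g * s * g := by
          have : s * (s * r * s) * s = s * (s * (g * s * g) * s) * s := by rw [h]
          have h7 : s * (s * r * s) * s = (s * s) * r * (s * s) := by group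
          have h8 : s * (s * (g * s * g) * s) * s = (s * s) * (g * s * g) * (s * s) := by group
          rw [h7, h8, hss] at this
          simpa using this
        rw [h6]
        have : g * (g * s * g) * g = (g * g) * s * (g * g) := by group
        rw [this, hgg]; group
      tauto
    have hlen : cs.length (s * q) ≤ n := by omega
    rcases ih (s * q) (s * g * s) (s * r * s) hlen hg' hr' with h3 | h3
    · left
      rw [hmem r]; tauto
    · right
      rw [hmem]
      have e : s * (g * r * g) * s = s * g * s * (s * r * s) * (s * g * s) := by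
        have : s * g * s * (s * r * s) * (s * g * s) = s * g * (s * s) * r * (s * s) * g * s := by
          group
        rw [this, hss]; group
      rw [e]; tauto

/-- The rank two parabolic subgroup generated by two simple reflections. -/
def V (i j : B) : Subgroup W := Subgroup.closure {cs.simple i, cs.simple j}

omit [Finite W] in
theorem left_mem_V (i j : B) : cs.simple i ∈ V cs i j := Subgroup.subset_closure (by simp)

omit [Finite W] in
theorem right_mem_V (i j : B) : cs.simple j ∈ V cs i j := Subgroup.subset_closure (by simp)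

omit [Finite W] in
theorem N_subset_V {i j : B} {x : W} (hx : x ∈ V cs i j) : ∀ t ∈ N cs x, t ∈ V cs i j := by
  unfold V at hx
  induction hx using Subgroup.closure_induction with
  | mem x hx =>
    intro t ht
    rcases hx with rfl | rfl
    · rw [mem_N_simple] at ht; rw [ht]; exact left_mem_V cs i j
    · rw [mem_N_simple] at ht; rw [ht]; exact right_mem_V cs i j
  | one => intro t ht; exact absurd ht (N_one cs t)
  | mul x y hx hy ihx ihy =>
    intro t ht
    rw [mem_N_mul] at ht
    by_cases h : t ∈ N cs x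
    · exact ihx t h
    · have h2 : x⁻¹ * t * x ∈ N cs y := by tauto
      have h3 := ihy _ h2
      have : t = x * (x⁻¹ * t * x) * x⁻¹ := by group
      rw [this]
      exact Subgroup.mul_mem _ (Subgroup.mul_mem _ hx h3) (Subgroup.inv_mem _ hx)
  | inv x hx ihx =>
    intro t ht
    rw [mem_N_inv] at ht
    have h3 := ihx _ ht
    have : t = x⁻¹ * (x * t * x⁻¹) * x := by group
    rw [this]
    exact Subgroup.mul_mem _ (Subgroup.mul_mem _ (Subgroup.inv_mem _ hx) h3) hx

omit [Finite W] in
theorem exists_word_V_step {i j k : B} (hk : k = i ∨ k = j) {ω : List B} (hω : cs.IsReduced ω)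
    (hl : ∀ a ∈ ω, a = i ∨ a = j) :
    ∃ ω' : List B, cs.IsReduced ω' ∧ (∀ a ∈ ω', a = i ∨ a = j) ∧
      cs.wordProd ω' = cs.simple k * cs.wordProd ω := by
  rcases cs.length_simple_mul (cs.wordProd ω) k with h | h
  · refine ⟨k :: ω, ?_, ?_, ?_⟩
    · unfold CoxeterSystem.IsReduced
      rw [wordProd_cons, h, hω.eq]; simp
    · intro a ha
      rcases List.mem_cons.1 ha with rfl | h2
      · exact hk
      · exact hl a h2
    · rw [wordProd_cons]
  · have h1 : cs.IsLeftInversion (cs.wordProd ω) (cs.simple k) :=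
      ⟨cs.isReflection_simple k, by omega⟩
    have h2 := mem_leftInvSeq_of_isLeftInversion cs h1
    obtain ⟨n, hn, hn2⟩ := List.mem_iff_getElem.1 h2
    have h3 := cs.getD_leftInvSeq_mul_wordProd ω n
    rw [List.getD_eq_getElem _ _ hn, hn2] at h3
    rw [length_leftInvSeq] at hn
    refine ⟨ω.eraseIdx n, ?_, ?_, h3.symm⟩
    · unfold CoxeterSystem.IsReduced
      rw [← h3]
      have := List.length_eraseIdx_add_one hn
      have := hω.eq
      omega
    · intro a ha
      exact hl a (List.mem_of_mem_eraseIdx ha)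

omit [Finite W] in
theorem exists_word_V {i j : B} {x : W} (hx : x ∈ V cs i j) :
    ∃ ω : List B, cs.IsReduced ω ∧ (∀ a ∈ ω, a = i ∨ a = j) ∧ cs.wordProd ω = x := by
  unfold V at hx
  induction hx using Subgroup.closure_induction_left with
  | one => exact ⟨[], by simp [CoxeterSystem.IsReduced], by simp, by simp⟩
  | mul_left x hx y _ ih =>
    obtain ⟨ω, h1, h2, rfl⟩ := ih
    rcases hx with rfl | rfl
    · exact exists_word_V_step cs (Or.inl rfl) h1 h2
    · exact exists_word_V_step cs (Or.inr rfl) h1 h2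
  | inv_mul_cancel x hx y _ ih =>
    obtain ⟨ω, h1, h2, rfl⟩ := ih
    rcases hx with rfl | rfl
    · rw [inv_simple]; exact exists_word_V_step cs (Or.inl rfl) h1 h2
    · rw [inv_simple]; exact exists_word_V_step cs (Or.inr rfl) h1 h2

omit [Finite W] in
theorem exists_descent_V {i j : B} {x : W} (hx : x ∈ V cs i j) (h1 : x ≠ 1) :
    cs.simple i ∈ N cs x ∨ cs.simple j ∈ N cs x := by
  obtain ⟨ω, h2, h3, rfl⟩ := exists_word_V cs hx
  cases ω with
  | nil => simp at h1
  | cons k ω =>
    have h4 : cs.simple k ∈ N cs (cs.wordProd (k :: ω)) := by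
      rw [N_wordProd_of_isReduced cs h2]
      simp [leftInvSeq]
    rcases h3 k (by simp) with rfl | rfl
    · exact Or.inl h4
    · exact Or.inr h4

omit [Finite W] in
theorem coset_decomp (i j : B) (v : W) :
    ∃ a ∈ V cs i j, ∃ v' : W, v = a * v' ∧ ∀ t ∈ V cs i j, t ∉ N cs v' := by
  classical
  have hne : ∃ n : ℕ, ∃ a ∈ V cs i j, ∃ v' : W, v = a * v' ∧ cs.length v' = n :=
    ⟨_, 1, Subgroup.one_mem _, v, by simp, rfl⟩
  obtain ⟨a, ha, v', hv, hn⟩ := Nat.find_spec hne
  refine ⟨a, ha, v', hv, ?_⟩
  intro t ht hmem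
  have h1 := hmem.2
  have h2 : t * t = 1 := hmem.1.mul_self
  have : ∃ a ∈ V cs i j, ∃ v'' : W, v = a * v'' ∧ cs.length v'' = cs.length (t * v') := by
    refine ⟨a * t, Subgroup.mul_mem _ ha ht, t * v', ?_, rfl⟩
    rw [hv]
    have : a * t * (t * v') = a * (t * t) * v' := by group
    rw [this, h2, mul_one]
  have := Nat.find_min' hne this
  omega

omit [Finite W] in
theorem coset_mem_N {i j : B} {a v' : W} (ha : a ∈ V cs i j) (h : ∀ t ∈ V cs i j, t ∉ N cs v')
    {t : W} (ht : t ∈ V cs i j) : t ∈ N cs (a * v') ↔ t ∈ N cs a := by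
  rw [mem_N_mul]
  have := h (a⁻¹ * t * a) (Subgroup.mul_mem _ (Subgroup.mul_mem _ (Subgroup.inv_mem _ ha) ht) ha)
  tauto

omit [Finite W] in
/-- If neither simple reflection is a left descent then no reflection of `V` is an inversion. -/
theorem not_mem_N_of_V {i j : B} {v : W} (hi : cs.simple i ∉ N cs v) (hj : cs.simple j ∉ N cs v) :
    ∀ t ∈ V cs i j, t ∉ N cs v := by
  obtain ⟨a, ha, v', rfl, hv'⟩ := coset_decomp cs i j v
  rw [coset_mem_N cs ha hv' (left_mem_V cs i j)] at hi
  rw [coset_mem_N cs ha hv' (right_mem_V cs i j)] at hj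
  have ha1 : a = 1 := by
    by_contra h
    rcases exists_descent_V cs ha h with h | h
    · exact hi h
    · exact hj h
  intro t ht
  rw [coset_mem_N cs ha hv' ht, ha1]
  exact N_one cs t

/-- If both simple reflections are left descents then all reflections of `V` are inversions. -/
theorem mem_N_of_V {i j : B} {v : W} (hi : cs.simple i ∈ N cs v) (hj : cs.simple j ∈ N cs v) :
    ∀ t ∈ V cs i j, cs.IsReflection t → t ∈ N cs v := by
  classical
  -- an element of maximal length in `V`
  obtain ⟨ω, hω, hmax⟩ : ∃ ω ∈ V cs i j, ∀ x ∈ V cs i j, cs.length x ≤ cs.length ω := by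
    have hfin : (V cs i j : Set W).Finite := Set.toFinite _
    obtain ⟨ω, hω, h⟩ := hfin.exists_maximalFor cs.length (V cs i j : Set W)
      ⟨1, Subgroup.one_mem _⟩
    refine ⟨ω, hω, ?_⟩
    intro x hx
    by_contra hc
    push Not at hc
    have := h hx hc.le
    omega
  have hall : ∀ t ∈ V cs i j, cs.IsReflection t → t ∈ N cs ω := by
    intro t ht htr
    refine ⟨htr, ?_⟩
    have h1 := hmax (t * ω) (Subgroup.mul_mem _ ht hω)
    have h2 := htr.length_mul_right_ne ω
    omega
  have hconj : ∀ k, (k = i ∨ k = j) →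
      ω * cs.simple k * ω⁻¹ = cs.simple i ∨ ω * cs.simple k * ω⁻¹ = cs.simple j := by
    intro k hk
    have hkV : cs.simple k ∈ V cs i j := by
      rcases hk with rfl | rfl
      · exact left_mem_V cs _ _
      · exact right_mem_V cs _ _
    have hcV : ω * cs.simple k * ω⁻¹ ∈ V cs i j :=
      Subgroup.mul_mem _ (Subgroup.mul_mem _ hω hkV) (Subgroup.inv_mem _ hω)
    have hne : ω * cs.simple k * ω⁻¹ ≠ 1 := by
      intro h
      have : cs.simple k = 1 := by
        have h2 : cs.simple k = ω⁻¹ * (ω * cs.simple k * ω⁻¹) * ω := by group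
        rw [h2, h]; group
      have h3 := cs.length_simple k
      rw [this] at h3; simp at h3
    -- inversions of the conjugate inside V
    have key : ∀ t ∈ V cs i j, cs.IsReflection t → t ∈ N cs (ω * cs.simple k * ω⁻¹) →
        t = ω * cs.simple k * ω⁻¹ := by
      intro t ht htr hmem
      rw [mem_N_mul, mem_N_mul_simple, mem_N_inv] at hmem
      have h1 := hall t ht htr
      have h2 : ω * ((ω * cs.simple k)⁻¹ * t * (ω * cs.simple k)) * ω⁻¹ ∈ N cs ω := by
        apply hall
        · have hx : (ω * cs.simple k) ∈ V cs i j := Subgroup.mul_mem _ hω hkV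
          exact Subgroup.mul_mem _ (Subgroup.mul_mem _ hω (Subgroup.mul_mem _
            (Subgroup.mul_mem _ (Subgroup.inv_mem _ hx) ht) hx)) (Subgroup.inv_mem _ hω)
        · have h3 := (htr.conj (ω * cs.simple k)⁻¹).conj ω
          simpa using h3
      tauto
    rcases exists_descent_V cs hcV hne with h | h
    · left
      exact (key _ (left_mem_V cs i j) (cs.isReflection_simple i) h).symm
    · right
      exact (key _ (right_mem_V cs i j) (cs.isReflection_simple j) h).symm
  have hinv : ∀ t, (t ∈ N cs (ω⁻¹ * v) ↔ ¬ (t ∈ N cs ω⁻¹ ↔ ω * t * ω⁻¹ ∈ N cs v)) := by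
    intro t
    rw [mem_N_mul, inv_inv]
  have hin : ∀ t ∈ V cs i j, cs.IsReflection t → t ∈ N cs ω⁻¹ := by
    intro t ht htr
    rw [mem_N_inv]
    exact hall _ (Subgroup.mul_mem _ (Subgroup.mul_mem _ hω ht) (Subgroup.inv_mem _ hω))
      (htr.conj ω)
  have hv1 : ∀ k, (k = i ∨ k = j) → cs.simple k ∉ N cs (ω⁻¹ * v) := by
    intro k hk
    rw [hinv]
    have hkV : cs.simple k ∈ V cs i j := by
      rcases hk with rfl | rfl
      · exact left_mem_V cs _ _
      · exact right_mem_V cs _ _
    have h1 := hin _ hkV (cs.isReflection_simple k)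
    have h2 : ω * cs.simple k * ω⁻¹ ∈ N cs v := by
      rcases hconj k hk with h | h
      · rw [h]; exact hi
      · rw [h]; exact hj
    tauto
  have hnone := not_mem_N_of_V cs (hv1 i (Or.inl rfl)) (hv1 j (Or.inr rfl))
  intro t ht htr
  have h1 := hnone (ω⁻¹ * t * ω)
    (Subgroup.mul_mem _ (Subgroup.mul_mem _ (Subgroup.inv_mem _ hω) ht) hω)
  rw [hinv] at h1
  have h2 := hin (ω⁻¹ * t * ω)
    (Subgroup.mul_mem _ (Subgroup.mul_mem _ (Subgroup.inv_mem _ hω) ht) hω)
    (by simpa using htr.conj ω⁻¹)
  have e : ω * (ω⁻¹ * t * ω) * ω⁻¹ = t := by group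
  rw [e] at h1
  tauto

end Pool.Agent.LibMP272625
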